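import Mathlib
import Pool.Agent.TH618.YM.Cartan
import Pool.Agent.X134.SM.Cone

/-!
# Lattice Yang-Mills theory: the energy-momentum spectrum at weak coupling

Wilson's lattice gauge theory with gauge group an arbitrary closed subgroup `G` of `U(N)` on the
lattice of `D ≥ 2` space dimensions and one time dimension, at the inverse coupling `β`, in all
infinite volume limits `ν`. Every gauge invariant continuous function `F` of the space links at time
zero has a unique spectral measure `ρ` (Källén-Lehmann representation): a finite measure on the set of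
the pairs `(λ, z)`, `0 ≤ λ ≤ 1`, `|z_1| = ... = |z_D| = 1`, such that the covariance of `F` and of its
translate by the space vector `x` and the time `t ≥ 0` is `∫ λ^t z^x dρ`; here `λ = exp (-E)` and
`z = exp (i p)` for the energy `E` and the momentum `p` of the states.

As `β → ∞` the spectral measures of the Wilson loops, multiplied by `β²`, converge weakly, uniformly
in `ν`, to the measure of two free massless gluons: the energy of a gluon of momentum `k` is
`ω(k) = arcosh (1 + ∑ (1 - cos k_i))`, and the density is `(dim G / 2) w(k) w(k')`,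
`w = ‖current‖² / (2 sinh ω)`. If `G` is not discrete, the energy-momentum spectrum becomes dense in
the whole light cone `{(E, p) : E ≥ ω(p)}` of the lattice: every neighbourhood of a point of the cone
carries a part, bounded away from zero, of the spectral measure of a suitable product of plaquette
variables for all large `β`, and for `β ≥ β₀(ε)` all the points of the cone have distance less than
`ε` from the spectrum. In particular the mass gap tends to zero as `β → ∞`.
-/

open MeasureTheory Matrix Filter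
open scoped Matrix.Norms.Frobenius Topology ContDiff

namespace Pool.Agent.Results.MP_7f377f_mp.SpectralMeasure

set_option linter.unusedSectionVars false

noncomputable section

/-- Complex `N × N` matrices. -/
abbrev Mt (N : ℕ) := Matrix (Fin N) (Fin N) ℂ

/-- The unitary group `U(N)`. -/
abbrev UU (N : ℕ) := Matrix.unitaryGroup (Fin N) ℂ

/-- The matrix of an element of a subgroup of `U(N)`. -/
def mt {N : ℕ} {G : Subgroup (UU N)} (g : G) : Mt N := ((g : UU N) : Mt N)

/-- The dimension of `G`: the dimension of the real space spanned by all matrices `Y` with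
`exp (t Y) ∈ G` for all real `t`. -/
def dimG {N : ℕ} (G : Subgroup (UU N)) : ℕ :=
  Module.finrank ℝ (Submodule.span ℝ {Y : Mt N | ∀ t : ℝ, ∃ g : G, mt g = NormedSpace.exp (t • Y)})

/-- Links of the periodic lattice `(ℤ/l)^d`: base point and direction. -/
abbrev Link (d l : ℕ) := (Fin d → ZMod l) × Fin d

/-- Links of the lattice `ℤ^d`: base point and direction. -/
abbrev LinkZ (d : ℕ) := (Fin d → ℤ) × Fin d

section

variable {N d l : ℕ} {G : Subgroup (UU N)}

/-- The product of the link variables around the plaquette at `x` in the directions `i`, `j`. -/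
def plaq (U : Link d l → G) (x : Fin d → ZMod l) (i j : Fin d) : G :=
  U (x, i) * U (x + Pi.single i 1, j) * (U (x + Pi.single j 1, i))⁻¹ * (U (x, j))⁻¹

/-- The Wilson action `∑_p Re tr (1 - U_p)`, the sum over the plaquettes. -/
def action [NeZero l] (U : Link d l → G) : ℝ :=
  ∑ x : Fin d → ZMod l, ∑ i : Fin d, ∑ j : Fin d,
    if i < j then (trace (1 - mt (plaq U x i j))).re else 0

/-- The periodic extension of a configuration. -/
def per (U : Link d l → G) : LinkZ d → G := fun e => U (fun i => (e.1 i : ZMod l), e.2)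

/-- The expectation of `F` in the lattice Yang-Mills theory on `(ℤ/l)^d`, `μ` being the Haar
measure. -/
def expect (l : ℕ) [NeZero l] [MeasurableSpace G] (μ : Measure G) (β : ℝ)
    (F : (LinkZ d → G) → ℝ) : ℝ :=
  (∫ U : Link d l → G, F (per U) * Real.exp (-(β * action U)) ∂(Measure.pi fun _ => μ)) /
    ∫ U : Link d l → G, Real.exp (-(β * action U)) ∂(Measure.pi fun _ => μ)

/-- `ν` is an infinite volume limit (weak limit along a subsequence) of the theories on the tori of
even side at inverse coupling `β`. -/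
structure IsInfVol [MeasurableSpace G] (μ : Measure G) (β : ℝ)
    (ν : Measure (LinkZ d → G)) : Prop where
  prob : IsProbabilityMeasure ν
  lim : ∃ s : ℕ → ℕ, Tendsto s atTop atTop ∧ ∀ F : (LinkZ d → G) → ℝ, Continuous F →
    Tendsto (fun j => expect (2 * (s j + 1)) μ β F) atTop (𝓝 (∫ V, F V ∂ν))

/-- The product of the link variables along the lattice path with the given steps which starts at
the given point. The step `(i, true)` leads from `x` to `x + e_i`, the step `(i, false)` leads from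
`x` to `x - e_i`. -/
def hol (V : LinkZ d → G) : (Fin d → ℤ) → List (Fin d × Bool) → G
  | _, [] => 1
  | x, (i, true) :: p => V (x, i) * hol V (x + Pi.single i 1) p
  | x, (i, false) :: p => (V (x - Pi.single i 1, i))⁻¹ * hol V (x - Pi.single i 1) p

end

/-- The end point of a lattice path. -/
def dest {d : ℕ} : (Fin d → ℤ) → List (Fin d × Bool) → (Fin d → ℤ)
  | x, [] => x
  | x, (i, true) :: p => dest (x + Pi.single i 1) p
  | x, (i, false) :: p => dest (x - Pi.single i 1) p

/-- The links of a lattice path, with the value `true` for the links which are passed in the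
positive direction. -/
def links {d : ℕ} : (Fin d → ℤ) → List (Fin d × Bool) → List (LinkZ d × Bool)
  | _, [] => []
  | x, (i, true) :: p => ((x, i), true) :: links (x + Pi.single i 1) p
  | x, (i, false) :: p => ((x - Pi.single i 1, i), false) :: links (x - Pi.single i 1) p

/-- Closed paths on the lattice `ℤ^d`. -/
structure Loop (d : ℕ) where
  base : Fin d → ℤ
  steps : List (Fin d × Bool)
  closed : dest base steps = base

/-- The Wilson loop variable `Re tr U_γ`. -/
def wilson {N d : ℕ} {G : Subgroup (UU N)} (γ : Loop d) (V : LinkZ d → G) : ℝ :=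
  (trace (mt (hol V γ.base γ.steps))).re

variable {D : ℕ}

/-- The loop lies in the hyperplane of time zero. The time is the last coordinate. -/
def Loop.TimeZero (γ : Loop (D + 1)) : Prop :=
  γ.base (Fin.last D) = 0 ∧ ∀ s ∈ γ.steps, s.1 ≠ Fin.last D

/-- The plaquette at the point `x` and time zero in the space directions `i`, `j`. -/
def plaquette (x : Fin D → ℤ) (i j : Fin D) : Loop (D + 1) where
  base := Fin.snoc x 0
  steps := [(i.castSucc, true), (j.castSucc, true), (i.castSucc, false), (j.castSucc, false)]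
  closed := by simp only [dest]; abel

/-- The observables: the continuous gauge invariant functions of the variables of the space links
at time zero. -/
structure Observable {N : ℕ} {G : Subgroup (UU N)} (F : (LinkZ (D + 1) → G) → ℝ) : Prop where
  continuous : Continuous F
  gauge : ∀ (g : (Fin (D + 1) → ℤ) → G) (V : LinkZ (D + 1) → G),
    F (fun e => g e.1 * V e * (g (e.1 + Pi.single e.2 1))⁻¹) = F V
  timeZero : ∀ V V' : LinkZ (D + 1) → G,
    (∀ e : LinkZ (D + 1), e.1 (Fin.last D) = 0 → e.2 ≠ Fin.last D → V e = V' e) → F V = F V'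

/-- The translate of a configuration by the space vector `x` and the time `t`. -/
def shift {N : ℕ} {G : Subgroup (UU N)} (x : Fin D → ℤ) (t : ℤ) (V : LinkZ (D + 1) → G) :
    LinkZ (D + 1) → G :=
  fun e => V (e.1 + (Fin.snoc x t : Fin (D + 1) → ℤ), e.2)

/-- The covariance of `F` and of its translate. -/
def cov {N : ℕ} {G : Subgroup (UU N)} [MeasurableSpace G] (ν : Measure (LinkZ (D + 1) → G))
    (F : (LinkZ (D + 1) → G) → ℝ) (t : ℕ) (x : Fin D → ℤ) : ℝ :=
  ∫ V, F V * F (shift x t V) ∂ν - (∫ V, F V ∂ν) * ∫ V, F (shift x t V) ∂ν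

/-- `ρ` is the spectral measure of the observable `F`, a measure of the variables `λ = exp (-E)`
and `z = exp (i p)`. -/
structure IsSpectral {N : ℕ} {G : Subgroup (UU N)} [MeasurableSpace G]
    (ν : Measure (LinkZ (D + 1) → G)) (F : (LinkZ (D + 1) → G) → ℝ)
    (ρ : Measure (ℝ × (Fin D → ℂ))) : Prop where
  finite : IsFiniteMeasure ρ
  support : ρ {q | q.1 ∈ Set.Icc (0 : ℝ) 1 ∧ ∀ i, ‖q.2 i‖ = 1}ᶜ = 0
  moments : ∀ (t : ℕ) (x : Fin D → ℤ), ∫ q, (q.1 : ℂ) ^ t * ∏ i, q.2 i ^ x i ∂ρ = (cov ν F t x : ℂ)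

/-- The energy-momentum spectrum (of the orthogonal complement of the vacuum): the union of the
supports of the spectral measures of the observables. -/
def spectrum {N : ℕ} {G : Subgroup (UU N)} [MeasurableSpace G] (ν : Measure (LinkZ (D + 1) → G)) :
    Set (ℝ × (Fin D → ℂ)) :=
  {s | ∃ F : (LinkZ (D + 1) → G) → ℝ, Observable F ∧ ∃ ρ, IsSpectral ν F ρ ∧
    ∀ O : Set (ℝ × (Fin D → ℂ)), IsOpen O → s ∈ O → 0 < ρ O}

/-- The energy of a free massless particle of momentum `k` on the lattice. -/
def energy (k : Fin D → ℝ) : ℝ := Real.arcosh (1 + ∑ i, (1 - Real.cos (k i)))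

/-- The point `(exp (-E), exp (i p))` of the energy `E` and the momentum `p`. -/
def point (E : ℝ) (p : Fin D → ℝ) : ℝ × (Fin D → ℂ) :=
  (Real.exp (-E), fun i => Complex.exp (Complex.I * (p i : ℝ)))

/-- The Fourier transform of the current of a loop at time zero, component `i`. -/
def current (γ : Loop (D + 1)) (k : Fin D → ℝ) (i : Fin (D + 1)) : ℂ :=
  ((links γ.base γ.steps).map fun e => if e.1.2 = i then (if e.2 then 1 else -1) *
    Complex.exp (Complex.I * (∑ j, k j * e.1.1 j.castSucc : ℝ)) else 0).sum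

/-- The density of the one-gluon state created by the loop. -/
def weight (γ : Loop (D + 1)) (k : Fin D → ℝ) : ℝ :=
  (∑ i, ‖current γ k i‖ ^ 2) / (2 * Real.sinh (energy k))

/-- The normalised Lebesgue measure on the cube `(-π, π]^D`. -/
def momenta (D : ℕ) : Measure (Fin D → ℝ) := Measure.pi fun _ =>
  ENNReal.ofReal (1 / (2 * Real.pi)) • volume.restrict (Set.Ioc (-Real.pi) Real.pi)

/-- The spectral measure of two free gluons, with `n` colours, created by the loop: the image of the
measure `(n / 2) w(k) w(k') dk dk'` under the map to the point of the energy `ω(k) + ω(k')` and of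
the momentum `k + k'`. -/
def twoGluon (n : ℕ) (γ : Loop (D + 1)) : Measure (ℝ × (Fin D → ℂ)) :=
  (((momenta D).prod (momenta D)).withDensity fun k =>
    ENNReal.ofReal (n / 2 * (weight γ k.1 * weight γ k.2))).map fun k =>
      point (energy k.1 + energy k.2) (k.1 + k.2)

/-- The spectral representation: every observable has a unique spectral measure, in every infinite
volume limit. -/
def Representation {N : ℕ} {G : Subgroup (UU N)} [MeasurableSpace G] (D : ℕ) (μ : Measure G) :
    Prop :=
  ∀ β : ℝ, 0 ≤ β → ∀ ν : Measure (LinkZ (D + 1) → G), IsInfVol μ β ν →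
    ∀ F : (LinkZ (D + 1) → G) → ℝ, Observable F → ∃! ρ, IsSpectral ν F ρ

/-- The Wilson loops `γ` at time zero are observables, and as `β → ∞` their spectral measures,
multiplied by `β²`, converge weakly to the measure of two free gluons, uniformly in the infinite
volume limit. -/
def WilsonLoopLimit {N : ℕ} {G : Subgroup (UU N)} [MeasurableSpace G] (D : ℕ) (μ : Measure G) :
    Prop :=
  ∀ γ : Loop (D + 1), γ.TimeZero → Observable (wilson γ : (LinkZ (D + 1) → G) → ℝ) ∧
    ∀ f : ℝ × (Fin D → ℂ) → ℝ, Continuous f → ∀ ε : ℝ, 0 < ε → ∃ β₀ : ℝ, ∀ β : ℝ, β₀ ≤ β →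
      ∀ ν : Measure (LinkZ (D + 1) → G), IsInfVol μ β ν → ∀ ρ, IsSpectral ν (wilson γ) ρ →
        |β ^ 2 * ∫ q, f q ∂ρ - ∫ q, f q ∂(twoGluon (dimG G) γ)| ≤ ε

/-- The plaquette variable creates all the states of two gluons of momenta `k` and `k'`: for all the
neighbourhoods `O` of the point of the energy `ω(k) + ω(k')` and of the momentum `k + k'` the
spectral measure of `O` is at least `c / β²` for all large `β`. -/
def TwoGluonStates {N : ℕ} {G : Subgroup (UU N)} [MeasurableSpace G] (D : ℕ) (μ : Measure G) :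
    Prop :=
  ∀ i j : Fin D, i ≠ j → ∀ (k k' : Fin D → ℝ) (O : Set (ℝ × (Fin D → ℂ))), IsOpen O →
    point (energy k + energy k') (k + k') ∈ O → ∃ c β₀ : ℝ, 0 < c ∧ ∀ β : ℝ, β₀ ≤ β →
      ∀ ν : Measure (LinkZ (D + 1) → G), IsInfVol μ β ν →
        ∀ ρ, IsSpectral ν (wilson (plaquette 0 i j)) ρ → c ≤ β ^ 2 * ρ.real O

/-- For every point `(E, p)`, `E ≥ ω(p)`, of the light cone and for each of its neighbourhoods `O`
there is a product of `m` plaquette variables `β (N - Re tr U) - q` whose spectral measure of `O` is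
at least `c > 0` for all large `β`. -/
def LightConeStates {N : ℕ} {G : Subgroup (UU N)} [MeasurableSpace G] (D : ℕ) (μ : Measure G) :
    Prop :=
  ∀ i j : Fin D, i ≠ j → ∀ (E : ℝ) (p : Fin D → ℝ) (O : Set (ℝ × (Fin D → ℂ))),
    energy p ≤ E → IsOpen O → point E p ∈ O →
      ∃ (m : ℕ) (x : Fin m → Fin D → ℤ) (q c β₀ : ℝ), 0 < c ∧ ∀ β : ℝ, β₀ ≤ β →
        ∀ ν : Measure (LinkZ (D + 1) → G), IsInfVol μ β ν →
          ∀ ρ, IsSpectral ν (fun V => ∏ r, (β * (N - wilson (plaquette (x r) i j) V) - q)) ρ →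
            c ≤ ρ.real O

/-- The energy-momentum spectrum becomes dense in the light cone as `β → ∞`. -/
def LightConeDense {N : ℕ} {G : Subgroup (UU N)} [MeasurableSpace G] (D : ℕ) (μ : Measure G) :
    Prop :=
  ∀ ε : ℝ, 0 < ε → ∃ β₀ : ℝ, ∀ β : ℝ, β₀ ≤ β → ∀ ν : Measure (LinkZ (D + 1) → G),
    IsInfVol μ β ν → ∀ (E : ℝ) (p : Fin D → ℝ), energy p ≤ E →
      ∃ s ∈ spectrum ν, dist s (point E p) < ε

open Pool.Agent.H906R3 Pool.Agent.W793 Pool.Agent.TH618 Pool.Agent.X134

namespace W

export Pool.Agent.Results.MP_7f377f_mp.WilsonLoopsWeakCoupling (Loop wilson IsInfVol links LieBasis)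

end W

variable {N n d l : ℕ} {G : Subgroup (UU N)}

/-! ### translation -/

lemma dim_eq (B : YM.Frame G n) : dimG G = n := by
  have hli : LinearIndependent ℝ B.X := by
    rw [Fintype.linearIndependent_iff]
    intro c hc a
    have h1 : (trace ((B.X a)ᴴ * ∑ b, c b • B.X b)).re = c a := by
      rw [Finset.mul_sum, trace_sum, Complex.re_sum]
      have h2 : ∀ b, (trace ((B.X a)ᴴ * (c b • B.X b))).re = if a = b then c b else 0 := by
        intro b
        rw [Matrix.mul_smul, trace_smul, Complex.smul_re, B.orth, smul_eq_mul, mul_ite, mul_one,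
          mul_zero]
      simp only [h2]
      rw [Finset.sum_ite_eq Finset.univ a, if_pos (Finset.mem_univ a)]
    rw [hc, mul_zero, trace_zero] at h1
    exact h1.symm
  have hspan : Submodule.span ℝ {Y : Mt N | ∀ t : ℝ, ∃ g : G, mt g = NormedSpace.exp (t • Y)} =
      Submodule.span ℝ (Set.range B.X) := by
    refine le_antisymm (Submodule.span_le.2 fun Y hY => B.full Y hY) (Submodule.span_le.2 ?_)
    rintro _ ⟨a, rfl⟩
    exact Submodule.subset_span fun t => ⟨B.ex a t, B.ex_eq a t⟩
  unfold dimG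
  rw [hspan, finrank_span_eq_card hli, Fintype.card_fin]

lemma hol_eq (V : LinkZ d → G) (p : List (Fin d × Bool)) (x : Fin d → ℤ) :
    hol V x p = WilsonLoopsWeakCoupling.hol V x p := by
  induction p generalizing x with
  | nil => rfl
  | cons s p ih =>
    obtain ⟨i, s⟩ := s
    cases s with
    | true => simp only [hol, WilsonLoopsWeakCoupling.hol, ih]
    | false => simp only [hol, WilsonLoopsWeakCoupling.hol, ih]

lemma dest_eq (p : List (Fin d × Bool)) (x : Fin d → ℤ) :
    dest x p = WilsonLoopsWeakCoupling.dest x p := by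
  induction p generalizing x with
  | nil => rfl
  | cons s p ih =>
    obtain ⟨i, s⟩ := s
    cases s with
    | true => simp only [dest, WilsonLoopsWeakCoupling.dest, ih]
    | false => simp only [dest, WilsonLoopsWeakCoupling.dest, ih]

lemma links_eq (p : List (Fin d × Bool)) (x : Fin d → ℤ) :
    links x p = WilsonLoopsWeakCoupling.links x p := by
  induction p generalizing x with
  | nil => rfl
  | cons s p ih =>
    obtain ⟨i, s⟩ := s
    cases s with
    | true => simp only [links, WilsonLoopsWeakCoupling.links, ih]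
    | false => simp only [links, WilsonLoopsWeakCoupling.links, ih]

/-- the loop in the form used by the helper files -/
def toW (γ : Loop d) : W.Loop d := ⟨γ.base, γ.steps, by rw [← dest_eq, γ.closed]⟩

lemma wilson_eq (γ : Loop d) : (wilson γ : (LinkZ d → G) → ℝ) = W.wilson (toW γ) := by
  funext V
  unfold wilson
  rw [hol_eq]
  rfl

/-- the basis in the form used by the helper files -/
def toB (B : YM.Frame G n) : W.LieBasis G n where
  X := B.X
  ex := B.ex
  ex_eq := B.ex_eq
  orth := B.orth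
  full := B.full

lemma toW_plaquette (i j : Fin D) : toW (plaquette 0 i j) = SM.plq i j := by
  refine SM.loop_ext ?_ rfl
  show (Fin.snoc (0 : Fin D → ℤ) 0 : Fin (D + 1) → ℤ) = 0
  exact SM.ptz_zero

lemma toW_sep (S m : ℕ) (r : Fin m) (i j : Fin D) : toW (plaquette (fun _ => (r : ℤ) * S) i j) =
    SM.sepL S (fun _ => SM.plq i j) r := by
  refine SM.loop_ext ?_ rfl
  show (Fin.snoc (fun _ => (r : ℤ) * S) 0 : Fin (D + 1) → ℤ) = 0 + SM.sep S m r
  rw [zero_add]
  rfl

lemma energy_eq (k : Fin D → ℝ) : energy k = SM.om 1 k := by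
  unfold energy SM.om
  rw [SM.cs_one]

lemma point_eq (E : ℝ) (p : Fin D → ℝ) : point E p = SM.pt E p := rfl

lemma sum_get {α : Type*} (l : List α) (f : α → ℂ) :
    (l.map f).sum = ∑ i : Fin l.length, f (l.get i) := by
  rw [← List.sum_ofFn]
  congr 1
  conv_lhs => rw [← List.ofFn_get l]
  rw [List.map_ofFn]
  rfl

lemma current_eq (γ : Loop (D + 1)) (k : Fin D → ℝ) (i : Fin (D + 1)) : current γ k i =
    SM.cur (SM.sgL (toW γ)) (SM.posL (toW γ)) (SM.dirL (toW γ)) k i := by
  unfold current SM.cur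
  rw [links_eq, sum_get]
  refine Finset.sum_congr rfl fun e _ => ?_
  have hs : ((SM.sgL (toW γ) e : ℝ) : ℂ) =
      if ((SM.lkL (toW γ)).get e).2 then (1 : ℂ) else -1 := by
    unfold SM.sgL
    split_ifs <;> simp
  rw [hs]
  rfl

lemma weight_eq (γ : Loop (D + 1)) (k : Fin D → ℝ) : weight γ k =
    SM.wgt (SM.sgL (toW γ)) (SM.posL (toW γ)) (SM.dirL (toW γ)) k := by
  unfold weight SM.wgt SM.cur2
  simp only [current_eq, energy_eq]

lemma twoGluon_eq (n : ℕ) (γ : Loop (D + 1)) : twoGluon n γ =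
    SM.rinf (SM.sgL (toW γ)) (SM.posL (toW γ)) (SM.dirL (toW γ)) (n / 2) := by
  unfold twoGluon SM.rinf
  simp only [weight_eq, energy_eq]
  rfl

lemma observable_TZ {F : (LinkZ (D + 1) → G) → ℝ} (h : Observable F) : SM.TZ F :=
  ⟨h.continuous, h.gauge, h.timeZero⟩

lemma TZ_observable {F : (LinkZ (D + 1) → G) → ℝ} (h : SM.TZ F) : Observable F :=
  ⟨h.cont, h.inv, h.tz⟩

section

variable [MeasurableSpace G] [BorelSpace G] (μ : Measure G) [IsProbabilityMeasure μ]
  [μ.IsHaarMeasure]

lemma infVol_W {β : ℝ} {ν : Measure (LinkZ d → G)} (h : IsInfVol μ β ν) : W.IsInfVol μ β ν :=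
  ⟨h.prob, h.lim⟩

lemma infVol_of {β : ℝ} {ν : Measure (LinkZ d → G)} (h : W.IsInfVol μ β ν) : IsInfVol μ β ν :=
  ⟨h.prob, h.lim⟩

variable [CompactSpace G] [SecondCountableTopology G]

lemma cov_eq (B : YM.Frame G n) {β : ℝ} {ν : Measure (LinkZ (D + 1) → G)} (hν : IsInfVol μ β ν)
    {F : (LinkZ (D + 1) → G) → ℝ} (hF : Continuous F) (t : ℕ) (x : Fin D → ℤ) :
    cov ν F t x = SM.cvZ ν F (SM.ptz x t) := by
  have := WilsonLoopsWeakCoupling.right_inv μ
  have := WilsonLoopsWeakCoupling.inv_inv' μ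
  have h1 : ∫ V, F (shift x t V) ∂ν = ∫ V, F V ∂ν :=
    SM.int_sh μ hF (SM.infV_of μ (toB B) (infVol_W μ hν)) (SM.ptz x t)
  unfold cov SM.cvZ
  rw [h1, sq]
  rfl

lemma spectral_iff (B : YM.Frame G n) {β : ℝ} {ν : Measure (LinkZ (D + 1) → G)}
    (hν : IsInfVol μ β ν) {F : (LinkZ (D + 1) → G) → ℝ} (hF : Continuous F)
    (ρ : Measure (ℝ × (Fin D → ℂ))) : IsSpectral ν F ρ ↔ SM.IsSp ν F ρ := by
  constructor
  · rintro ⟨h1, h2, h3⟩
    refine ⟨h1, h2, fun t x => ?_⟩
    rw [← cov_eq μ B hν hF]
    exact h3 t x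
  · rintro ⟨h1, h2, h3⟩
    refine ⟨h1, h2, fun t x => ?_⟩
    rw [cov_eq μ B hν hF]
    exact h3 t x

end

lemma point_mem (E : ℝ) (hE : 0 ≤ E) (p : Fin D → ℝ) : point E p ∈ SM.KK D := by
  refine ⟨⟨(Real.exp_pos _).le, ?_⟩, fun i => ?_⟩
  · show Real.exp (-E) ≤ 1
    rw [Real.exp_le_one_iff]
    linarith
  · show ‖Complex.exp (Complex.I * (p i : ℝ))‖ = 1
    rw [mul_comm, Complex.norm_exp_ofReal_mul_I]

lemma energy_nonneg (p : Fin D → ℝ) : 0 ≤ energy p := by
  rw [energy_eq]
  exact SM.om_nonneg one_pos le_rfl p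

/-- The energy-momentum spectrum of lattice Yang-Mills theory at weak coupling. -/
theorem result {N D : ℕ} (hD : 2 ≤ D) (G : Subgroup (UU N)) (hG : IsClosed (G : Set (UU N)))
    [MeasurableSpace G] [BorelSpace G] (μ : Measure G) [IsProbabilityMeasure μ] [μ.IsHaarMeasure] :
    (∀ β : ℝ, ∃ ν : Measure (LinkZ (D + 1) → G), IsInfVol μ β ν) ∧
    Representation D μ ∧ WilsonLoopLimit D μ ∧
    (0 < dimG G → TwoGluonStates D μ ∧ LightConeStates D μ ∧ LightConeDense D μ) := by
  have hcomp : CompactSpace G := SM.compG hG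
  have hsec : SecondCountableTopology G := SM.secG
  have hri := WilsonLoopsWeakCoupling.right_inv μ
  have hii := WilsonLoopsWeakCoupling.inv_inv' μ
  obtain ⟨n, ⟨B⟩⟩ := YM.exists_frame hG
  have hobs : ∀ γ : Loop (D + 1), γ.TimeZero →
      Observable (wilson γ : (LinkZ (D + 1) → G) → ℝ) := by
    intro γ hγ
    rw [wilson_eq]
    exact TZ_observable (SM.wilson_TZ ⟨hγ.1, hγ.2⟩)
  have hpl : ∀ (x : Fin D → ℤ) (i j : Fin D), (plaquette x i j).TimeZero := by
    intro x i j
    have h : ∀ k : Fin D, k.castSucc ≠ Fin.last D := fun k => (Fin.castSucc_lt_last k).ne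
    refine ⟨by show (Fin.snoc x 0 : Fin (D + 1) → ℤ) (Fin.last D) = 0; simp, fun s hs => ?_⟩
    simp only [plaquette, List.mem_cons, List.not_mem_nil, or_false] at hs
    rcases hs with rfl | rfl | rfl | rfl <;> exact h _
  have hex : ∀ β : ℝ, 0 ≤ β → ∀ ν : Measure (LinkZ (D + 1) → G), IsInfVol μ β ν →
      ∀ F : (LinkZ (D + 1) → G) → ℝ, Observable F → ∃ ρ, IsSpectral ν F ρ := by
    intro β hβ ν hν F hF
    obtain ⟨ρ, hρ⟩ := SM.sp_exists μ (observable_TZ hF) hβ (SM.infV_of μ (toB B) (infVol_W μ hν))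
    exact ⟨ρ, (spectral_iff μ B hν hF.continuous ρ).2 hρ⟩
  have hcone : 0 < n → ∀ i j : Fin D, i ≠ j → ∀ (E : ℝ) (p : Fin D → ℝ)
      (O : Set (ℝ × (Fin D → ℂ))), energy p ≤ E → IsOpen O → point E p ∈ O →
        ∃ (m : ℕ) (x : Fin m → Fin D → ℤ) (q c β₀ : ℝ), 0 < c ∧
          ∀ β : ℝ, β₀ ≤ β → ∀ ν : Measure (LinkZ (D + 1) → G), IsInfVol μ β ν →
            ∀ ρ, IsSpectral ν (fun V => ∏ r, (β * (N - wilson (plaquette (x r) i j) V) - q)) ρ →
              c ≤ ρ.real O := by
    intro hn i j hij E p O hE hO hx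
    rw [energy_eq] at hE
    obtain ⟨m, S, c, hm, hc, h⟩ := SM.cone_main μ hD hG (toB B) hn hij hE hO hx
    obtain ⟨β₀, h⟩ := h S le_rfl
    refine ⟨m, fun r _ => (r : ℤ) * S, n / 2 * WilsonLoopsWeakCoupling.inter (SM.plq i j)
      (SM.plq i j), c, β₀, hc, fun β hβ ν hν ρ hρ => ?_⟩
    refine h β hβ ν (infVol_W μ hν) ρ ?_
    have e1 : (fun V : LinkZ (D + 1) → G => ∏ r : Fin m,
        (β * (N - wilson (plaquette (fun _ => (r : ℤ) * S) i j) V) -
          n / 2 * WilsonLoopsWeakCoupling.inter (SM.plq i j) (SM.plq i j))) = fun V =>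
        ∏ r : Fin m, WilsonLoopsWeakCoupling.loopVar n β
          (SM.sepL S (fun _ => SM.plq i j) r) V := by
      funext V
      refine Finset.prod_congr rfl fun r _ => ?_
      rw [wilson_eq, toW_sep]
      unfold WilsonLoopsWeakCoupling.loopVar
      congr 2
      unfold SM.sepL
      rw [SM.inter_shift]
    rw [← e1]
    refine (spectral_iff μ B hν ?_ ρ).1 hρ
    exact continuous_finsetProd _ fun r _ => (continuous_const.mul (continuous_const.sub
      (hobs _ (hpl _ i j)).continuous)).sub continuous_const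
  refine ⟨fun β => ?_, fun β hβ ν hν F hF => ?_, fun γ hγ => ⟨hobs γ hγ,
    fun f hf ε hε => ?_⟩, fun hn => ⟨fun i j hij k k' O hO hx => ?_, ?_, fun ε hε => ?_⟩⟩
  · obtain ⟨ν, hν⟩ := WilsonLoopsWeakCoupling.exists_infVol (d := D + 1) μ (toB B) β
    exact ⟨ν, infVol_of μ hν⟩
  · obtain ⟨ρ, hρ⟩ := hex β hβ ν hν F hF
    refine ⟨ρ, hρ, fun ρ' hρ' => ?_⟩
    exact SM.sp_unique ((spectral_iff μ B hν hF.continuous ρ').1 hρ')
      ((spectral_iff μ B hν hF.continuous ρ).1 hρ)
  · obtain ⟨β₀, h⟩ := SM.sp_lim μ hD hG (toB B) (γ := toW γ) ⟨hγ.1, hγ.2⟩ hf hε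
    refine ⟨β₀, fun β hβ ν hν ρ hρ => ?_⟩
    rw [dim_eq B, twoGluon_eq]
    refine h β hβ ν (infVol_W μ hν) ρ ?_
    rw [← wilson_eq]
    exact (spectral_iff μ B hν (hobs γ hγ).continuous ρ).1 hρ
  · rw [dim_eq B] at hn
    rw [energy_eq, energy_eq] at hx
    obtain ⟨c, β₀, hc, h⟩ := SM.two_main μ hD hG (toB B) hn hij k k' hO hx
    refine ⟨c, β₀, hc, fun β hβ ν hν ρ hρ => ?_⟩
    refine h β hβ ν (infVol_W μ hν) ρ ?_
    rw [← toW_plaquette, ← wilson_eq]
    exact (spectral_iff μ B hν (hobs _ (hpl 0 i j)).continuous ρ).1 hρ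
  · rw [dim_eq B] at hn
    exact hcone hn
  · rw [dim_eq B] at hn
    have hij : (⟨0, by omega⟩ : Fin D) ≠ ⟨1, by omega⟩ := by
      intro h
      simp [Fin.ext_iff] at h
    have htb : TotallyBounded {s : ℝ × (Fin D → ℂ) | ∃ (E : ℝ) (p : Fin D → ℝ), energy p ≤ E ∧
        s = point E p} := by
      refine SM.KK_compact.totallyBounded.subset ?_
      rintro s ⟨E, p, hE, rfl⟩
      exact point_mem E ((energy_nonneg p).trans hE) p
    obtain ⟨t, hts, htf, hcov⟩ := htb.exists_subset (Metric.dist_mem_uniformity (half_pos hε))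
    have key : ∀ y : ℝ × (Fin D → ℂ), ∃ b : ℝ, y ∈ t → ∀ β : ℝ, b ≤ β → 0 ≤ β →
        ∀ ν : Measure (LinkZ (D + 1) → G), IsInfVol μ β ν → ∃ s ∈ spectrum ν, dist s y < ε / 2 := by
      intro y
      by_cases hy : y ∈ t
      · obtain ⟨E, p, hE, rfl⟩ := hts hy
        obtain ⟨m, x, q, c, b, hc, h⟩ := hcone hn _ _ hij E p (Metric.ball (point E p) (ε / 2)) hE
          Metric.isOpen_ball (Metric.mem_ball_self (half_pos hε))
        refine ⟨b, fun _ β hβ hβ0 ν hν => ?_⟩
        have hF : Observable (fun V : LinkZ (D + 1) → G => ∏ r : Fin m,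
            (β * (N - wilson (plaquette (x r) ⟨0, by omega⟩ ⟨1, by omega⟩) V) - q)) := by
          refine TZ_observable (SM.prod_TZ _ fun r => ?_)
          have h1 := hobs _ (hpl (x r) ⟨0, by omega⟩ ⟨1, by omega⟩)
          refine ⟨(continuous_const.mul (continuous_const.sub h1.continuous)).sub continuous_const,
            fun g V => ?_, fun V V' hV => ?_⟩
          · have := h1.gauge g V
            show β * (N - wilson _ (fun e => g e.1 * V e * (g (e.1 + Pi.single e.2 1))⁻¹)) - q = _
            rw [this]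
          · rw [h1.timeZero V V' hV]
        obtain ⟨ρ, hρ⟩ := hex β hβ0 ν hν _ hF
        have h2 := h β hβ ν hν ρ hρ
        have h3 : ρ (Metric.ball (point E p) (ε / 2)) ≠ 0 := by
          intro h0
          rw [Measure.real, h0, ENNReal.toReal_zero] at h2
          linarith
        obtain ⟨s, hs, hs'⟩ := exists_mem_forall_mem_nhdsWithin_pos_measure h3
        exact ⟨s, ⟨_, hF, ρ, hρ, fun O hO hsO => hs' O (mem_nhdsWithin_of_mem_nhds
          (hO.mem_nhds hsO))⟩, Metric.mem_ball.1 hs⟩
      · exact ⟨0, fun h => absurd h hy⟩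
    choose b hb using key
    refine ⟨∑ y ∈ htf.toFinset, |b y|, fun β hβ ν hν E p hE => ?_⟩
    have hmem := hcov ⟨E, p, hE, rfl⟩
    simp only [Set.mem_iUnion, Set.mem_ofPred_eq] at hmem
    obtain ⟨y, hy, hdist⟩ := hmem
    have h1 : b y ≤ ∑ y ∈ htf.toFinset, |b y| :=
      SM.le_sum_abs _ b (htf.mem_toFinset.2 hy)
    have h2 : 0 ≤ ∑ y ∈ htf.toFinset, |b y| := Finset.sum_nonneg fun _ _ => abs_nonneg _
    obtain ⟨s, hs, hs'⟩ := hb y hy β (h1.trans hβ) (h2.trans hβ) ν hν
    refine ⟨s, hs, ?_⟩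
    have h3 := dist_triangle s y (point E p)
    rw [dist_comm y] at h3
    linarith

end

end Pool.Agent.Results.MP_7f377f_mp.SpectralMeasure
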